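import Pool.Agent.H53.SH.Fun

/-!
# The Hilbert basis of spherical harmonics
-/

noncomputable section

namespace Pool.H53.SH

open MvPolynomial MeasureTheory
open scoped InnerProductSpace

/-- The space of spherical harmonics of degree `l`. -/
def HS (l : ℕ) : Submodule ℝ (Lp ℝ 2 sig) := (Harm l).map T

instance (l : ℕ) : FiniteDimensional ℝ (Harm l) := by
  have h1 : (homogeneousSubmodule (Fin 3) ℝ l).FG := homogeneousSubmodule_fg _ _ l
  have h2 : FiniteDimensional ℝ (homogeneousSubmodule (Fin 3) ℝ l) :=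
    Module.Finite.iff_fg.2 h1
  exact Submodule.finiteDimensional_of_le (S₂ := homogeneousSubmodule (Fin 3) ℝ l) inf_le_left

instance (l : ℕ) : FiniteDimensional ℝ (HS l) := by
  unfold HS; infer_instance

/-- The dimension of the space of spherical harmonics of degree `l`. -/
def dm (l : ℕ) : ℕ := Module.finrank ℝ (HS l)

/-- An orthonormal basis of the space of spherical harmonics of degree `l`. -/
def hb (l : ℕ) : OrthonormalBasis (Fin (dm l)) ℝ (HS l) := stdOrthonormalBasis ℝ (HS l)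

lemma exists_yp (l : ℕ) (m : Fin (dm l)) : ∃ p ∈ Harm l, T p = (hb l m : Lp ℝ 2 sig) := by
  obtain ⟨p, hp, h⟩ := Submodule.mem_map.1 (hb l m).2
  exact ⟨p, hp, h⟩

/-- The harmonic polynomials representing the orthonormal basis. -/
def yp (l : ℕ) (m : Fin (dm l)) : P3 := (exists_yp l m).choose

lemma yp_mem (l : ℕ) (m : Fin (dm l)) : yp l m ∈ Harm l := (exists_yp l m).choose_spec.1

lemma T_yp (l : ℕ) (m : Fin (dm l)) : T (yp l m) = (hb l m : Lp ℝ 2 sig) :=
  (exists_yp l m).choose_spec.2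

lemma hb_apply_span (l : ℕ) {p : P3} (hp : p ∈ Harm l) :
    T p ∈ Submodule.span ℝ (Set.range fun m : Fin (dm l) => T (yp l m)) := by
  have h1 : T p ∈ HS l := ⟨p, hp, rfl⟩
  have h2 := (hb l).sum_repr ⟨T p, h1⟩
  have h3 : T p = ∑ m, (hb l).repr ⟨T p, h1⟩ m • T (yp l m) := by
    have h4 := congrArg (Subtype.val) h2
    simp only [Submodule.coe_sum, Submodule.coe_smul] at h4
    refine h4.symm.trans ?_
    exact Finset.sum_congr rfl fun m _ => by rw [T_yp]
  rw [h3]
  exact Submodule.sum_mem _ fun m _ => Submodule.smul_mem _ _ (Submodule.subset_span ⟨m, rfl⟩)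

lemma sum_LD_LD_inner {l : ℕ} {p : P3} (h : p ∈ Harm l) :
    T (LD 0 (LD 0 p)) + T (LD 1 (LD 1 p)) + T (LD 2 (LD 2 p)) = (-((l : ℝ) * (l + 1))) • T p := by
  rw [← map_add, ← map_add, sum_LD_LD_Harm h, ← smul_eq_C_mul, map_smul]

/-- Harmonics of different degrees are orthogonal. -/
lemma inner_Harm {l l' : ℕ} (hl : l ≠ l') {p q : P3} (hp : p ∈ Harm l) (hq : q ∈ Harm l') :
    ⟪T p, T q⟫_ℝ = 0 := by
  have h1 : ⟪T (LD 0 (LD 0 p)) + T (LD 1 (LD 1 p)) + T (LD 2 (LD 2 p)), T q⟫_ℝ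
      = ⟪T p, T (LD 0 (LD 0 q)) + T (LD 1 (LD 1 q)) + T (LD 2 (LD 2 q))⟫_ℝ := by
    simp only [inner_add_left, inner_add_right, inner_T_LD]
    ring
  rw [sum_LD_LD_inner hp, sum_LD_LD_inner hq, real_inner_smul_left, real_inner_smul_right] at h1
  have h2 : ((l : ℝ) * (l + 1) - (l' : ℝ) * (l' + 1)) * ⟪T p, T q⟫_ℝ = 0 := by linarith
  rcases mul_eq_zero.1 h2 with h3 | h3
  · exfalso
    have h4 : (l : ℝ) * (l + 1) = (l' : ℝ) * (l' + 1) := by linarith
    have h5 : l * (l + 1) = l' * (l' + 1) := by exact_mod_cast h4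
    rcases Nat.lt_or_gt_of_ne hl with h6 | h6
    · nlinarith
    · nlinarith
  · exact h3

/-- The spherical harmonics in `L²`. -/
def Yv (a : Σ l : ℕ, Fin (dm l)) : Lp ℝ 2 sig := T (yp a.1 a.2)

lemma orthonormal_Yv : Orthonormal ℝ Yv := by
  constructor
  · rintro ⟨l, m⟩
    simp only [Yv, T_yp]
    exact (hb l).orthonormal.1 m
  · rintro ⟨l, m⟩ ⟨l', m'⟩ hne
    simp only [Yv]
    by_cases h : l = l'
    · subst h
      have hm : m ≠ m' := fun h => hne (by rw [h])
      rw [T_yp, T_yp, ← Submodule.coe_inner]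
      exact (hb l).orthonormal.2 hm
    · exact inner_Harm h (yp_mem l m) (yp_mem l' m')

lemma T_mem_span (p : P3) : T p ∈ Submodule.span ℝ (Set.range Yv) := by
  have hhom : ∀ (n : ℕ) (q : P3), q.IsHomogeneous n → T q ∈ Submodule.span ℝ (Set.range Yv) := by
    intro n q hq
    have h1 := hom_mem_Lay n q hq
    unfold Lay at h1
    induction h1 using Submodule.span_induction with
    | mem x hx =>
      obtain ⟨j, l, -, h, hh, rfl⟩ := hx
      rw [T_pow_r2]
      have h2 := hb_apply_span l hh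
      refine Submodule.span_mono ?_ h2
      rintro _ ⟨m, rfl⟩
      exact ⟨⟨l, m⟩, rfl⟩
    | zero => rw [map_zero]; exact Submodule.zero_mem _
    | add x y hx' hy' hx hy =>
      rw [map_add]
      exact Submodule.add_mem _ (hx (Lay_hom hx')) (hy (Lay_hom hy'))
    | smul c x hx' hx =>
      rw [map_smul]
      exact Submodule.smul_mem _ _ (hx (Lay_hom hx'))
  rw [← sum_homogeneousComponent p, map_sum]
  exact Submodule.sum_mem _ fun n _ => hhom n _ (homogeneousComponent_isHomogeneous n p)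

lemma span_Yv_closure : ⊤ ≤ (Submodule.span ℝ (Set.range Yv)).topologicalClosure := by
  have h1 : (Subalgebra.toSubmodule rs.range).topologicalClosure = ⊤ := by
    rw [eq_top_iff]
    intro f _
    have h2 : f ∈ (rs.range).topologicalClosure := by rw [rs_dense]; trivial
    rw [← SetLike.mem_coe, Submodule.topologicalClosure_coe]
    rw [← SetLike.mem_coe, Subalgebra.topologicalClosure_coe] at h2
    exact h2
  have h3 := (ContinuousMap.toLp_denseRange (p := 2) ℝ sig ℝ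
    (by norm_num)).topologicalClosure_map_submodule h1
  rw [← h3]
  refine Submodule.topologicalClosure_mono ?_
  rintro _ ⟨f, ⟨p, rfl⟩, rfl⟩
  exact T_mem_span p

/-- The Hilbert basis of spherical harmonics. -/
def HB : HilbertBasis (Σ l : ℕ, Fin (dm l)) ℝ (Lp ℝ 2 sig) :=
  HilbertBasis.mk orthonormal_Yv span_Yv_closure

lemma HB_apply (a : Σ l : ℕ, Fin (dm l)) : HB a = Yv a := by
  unfold HB
  rw [HilbertBasis.coe_mk]

/-- The coefficient of `F` on a spherical harmonic. -/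
def cf (F : Lp ℝ 2 sig) (l : ℕ) (m : Fin (dm l)) : ℝ := ⟪F, T (yp l m)⟫_ℝ

/-- The energy of `F` in degree `l`. -/
def en (F : Lp ℝ 2 sig) (l : ℕ) : ℝ := ∑ m : Fin (dm l), cf F l m ^ 2

lemma en_nonneg (F : Lp ℝ 2 sig) (l : ℕ) : 0 ≤ en F l :=
  Finset.sum_nonneg fun _ _ => sq_nonneg _

/-- **Parseval.** -/
lemma hasSum_en (F : Lp ℝ 2 sig) : HasSum (en F) (‖F‖ ^ 2) := by
  have h1 := HB.hasSum_inner_mul_inner F F
  rw [real_inner_self_eq_norm_sq] at h1
  have h2 : HasSum (fun a : Σ l : ℕ, Fin (dm l) => cf F a.1 a.2 ^ 2) (‖F‖ ^ 2) := by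
    refine h1.congr_fun ?_
    intro a
    rw [HB_apply, real_inner_comm F (Yv a), cf, Yv]
    ring
  exact h2.sigma fun l => hasSum_fintype _

/-- The projection of `F` on the harmonics of degree `< N`, as a polynomial. -/
def pj (F : Lp ℝ 2 sig) (N : ℕ) : P3 :=
  ∑ l ∈ Finset.range N, ∑ m : Fin (dm l), cf F l m • yp l m

lemma inner_pj_left (F : Lp ℝ 2 sig) (N : ℕ) {l : ℕ} (hl : l < N) (m : Fin (dm l)) :
    ⟪T (pj F N), T (yp l m)⟫_ℝ = cf F l m := by
  unfold pj
  rw [map_sum, sum_inner, Finset.sum_eq_single l]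
  · rw [map_sum, sum_inner, Finset.sum_eq_single m]
    · rw [map_smul, real_inner_smul_left]
      have h1 := orthonormal_Yv.1 ⟨l, m⟩
      simp only [Yv] at h1
      rw [real_inner_self_eq_norm_sq, h1]; ring
    · intro m' _ hm'
      rw [map_smul, real_inner_smul_left]
      have h1 := orthonormal_Yv.2 (i := ⟨l, m'⟩) (j := ⟨l, m⟩) (by
        intro h
        rw [Sigma.mk.injEq] at h
        exact hm' (eq_of_heq h.2))
      simp only [Yv] at h1
      rw [h1, mul_zero]
    · intro h; exact absurd (Finset.mem_univ _) h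
  · intro l' _ hl'
    rw [map_sum, sum_inner]
    refine Finset.sum_eq_zero fun m' _ => ?_
    rw [map_smul, real_inner_smul_left, inner_Harm hl' (yp_mem l' m') (yp_mem l m), mul_zero]
  · intro h; exact absurd (Finset.mem_range.2 hl) h

/-- The sum of the squares of the rotation fields of the projection. -/
lemma lap_pj (F G : Lp ℝ 2 sig) (N : ℕ)
    (hG : ∀ l < N, ∀ m : Fin (dm l), ⟪G, T (yp l m)⟫_ℝ = cf F l m) :
    ⟪G, T (LD 0 (LD 0 (pj F N))) + T (LD 1 (LD 1 (pj F N))) + T (LD 2 (LD 2 (pj F N)))⟫_ℝ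
      = - ∑ l ∈ Finset.range N, (l : ℝ) * (l + 1) * en F l := by
  have h1 : T (LD 0 (LD 0 (pj F N))) + T (LD 1 (LD 1 (pj F N))) + T (LD 2 (LD 2 (pj F N)))
      = ∑ l ∈ Finset.range N, ∑ m : Fin (dm l),
        cf F l m • ((-((l : ℝ) * (l + 1))) • T (yp l m)) := by
    unfold pj
    simp only [map_sum, map_smul]
    rw [← Finset.sum_add_distrib, ← Finset.sum_add_distrib]
    refine Finset.sum_congr rfl fun l _ => ?_
    rw [← Finset.sum_add_distrib, ← Finset.sum_add_distrib]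
    refine Finset.sum_congr rfl fun m _ => ?_
    rw [← smul_add, ← smul_add, sum_LD_LD_inner (yp_mem l m)]
  rw [h1, inner_sum, ← Finset.sum_neg_distrib]
  refine Finset.sum_congr rfl fun l hl => ?_
  rw [inner_sum, en, Finset.mul_sum, ← Finset.sum_neg_distrib]
  refine Finset.sum_congr rfl fun m _ => ?_
  rw [real_inner_smul_right, real_inner_smul_right, hG l (Finset.mem_range.1 hl) m]
  ring

/-- **Partial energy bound.** If `G i` is the weak derivative of `F` along the rotation field `i`,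
then the sum of the squares of the norms is at least the energy of any partial sum. -/
lemma partial_energy {F : Lp ℝ 2 sig} {G : Fin 3 → Lp ℝ 2 sig}
    (hw : ∀ (i : Fin 3) (q : P3), ⟪G i, T q⟫_ℝ = - ⟪F, T (LD i q)⟫_ℝ) (N : ℕ) :
    ∑ l ∈ Finset.range N, (l : ℝ) * (l + 1) * en F l ≤ ∑ i, ‖G i‖ ^ 2 := by
  set S := ∑ l ∈ Finset.range N, (l : ℝ) * (l + 1) * en F l with hS
  have hcross : ∑ i, ⟪G i, T (LD i (pj F N))⟫_ℝ = S := by
    have h1 := lap_pj F F N (fun l _ m => rfl)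
    rw [inner_add_right, inner_add_right] at h1
    rw [Fin.sum_univ_three, hw, hw, hw]
    linarith
  have hself : ∑ i, ‖T (LD i (pj F N))‖ ^ 2 = S := by
    have h1 := lap_pj F (T (pj F N)) N (fun l hl m => inner_pj_left F N hl m)
    rw [inner_add_right, inner_add_right] at h1
    have h2 : ∀ i, ‖T (LD i (pj F N))‖ ^ 2 = - ⟪T (pj F N), T (LD i (LD i (pj F N)))⟫_ℝ := by
      intro i
      rw [← real_inner_self_eq_norm_sq, inner_T_LD]
    rw [Fin.sum_univ_three, h2, h2, h2]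
    linarith
  have hnn : 0 ≤ ∑ i, ‖G i - T (LD i (pj F N))‖ ^ 2 :=
    Finset.sum_nonneg fun _ _ => sq_nonneg _
  have hexp : ∑ i, ‖G i - T (LD i (pj F N))‖ ^ 2
      = ∑ i, ‖G i‖ ^ 2 - 2 * ∑ i, ⟪G i, T (LD i (pj F N))⟫_ℝ + ∑ i, ‖T (LD i (pj F N))‖ ^ 2 := by
    rw [Finset.mul_sum, ← Finset.sum_sub_distrib, ← Finset.sum_add_distrib]
    exact Finset.sum_congr rfl fun i _ => norm_sub_sq_real _ _
  rw [hexp, hcross, hself] at hnn
  linarith

/-- **The energy inequality on the sphere.** -/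
theorem energy {F : Lp ℝ 2 sig} {G : Fin 3 → Lp ℝ 2 sig}
    (hw : ∀ (i : Fin 3) (q : P3), ⟪G i, T q⟫_ℝ = - ⟪F, T (LD i q)⟫_ℝ) (L : ℕ) :
    ∑ l ∈ Finset.range L, (l : ℝ) * (l + 1) * en F l
      + (L : ℝ) * (L + 1) * (‖F‖ ^ 2 - ∑ l ∈ Finset.range L, en F l) ≤ ∑ i, ‖G i‖ ^ 2 := by
  have hlim : Filter.Tendsto (fun N => ∑ l ∈ Finset.range L, (l : ℝ) * (l + 1) * en F l
      + (L : ℝ) * (L + 1) * (∑ l ∈ Finset.range N, en F l - ∑ l ∈ Finset.range L, en F l))
      Filter.atTop (nhds (∑ l ∈ Finset.range L, (l : ℝ) * (l + 1) * en F l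
      + (L : ℝ) * (L + 1) * (‖F‖ ^ 2 - ∑ l ∈ Finset.range L, en F l))) :=
    (((hasSum_en F).tendsto_sum_nat.sub_const _).const_mul _).const_add _
  refine le_of_tendsto hlim ?_
  filter_upwards [Filter.eventually_ge_atTop L] with N hN
  refine le_trans ?_ (partial_energy hw N)
  have h1 : ∀ f : ℕ → ℝ, ∑ l ∈ Finset.range N, f l
      = ∑ l ∈ Finset.range L, f l + ∑ l ∈ Finset.Ico L N, f l := by
    intro f
    rw [Finset.range_eq_Ico, Finset.range_eq_Ico, Finset.sum_Ico_consecutive f (Nat.zero_le L) hN]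
  rw [h1 (fun l => en F l), h1 (fun l => (l : ℝ) * (l + 1) * en F l), add_sub_cancel_left,
    Finset.mul_sum]
  have h2 : ∑ l ∈ Finset.Ico L N, (L : ℝ) * (L + 1) * en F l
      ≤ ∑ l ∈ Finset.Ico L N, (l : ℝ) * (l + 1) * en F l := by
    refine Finset.sum_le_sum fun l hl => ?_
    refine mul_le_mul_of_nonneg_right ?_ (en_nonneg F l)
    have h3 : (L : ℝ) ≤ l := by exact_mod_cast (Finset.mem_Ico.1 hl).1
    have h4 : (0 : ℝ) ≤ L := Nat.cast_nonneg L
    nlinarith
  linarith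

end Pool.H53.SH
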