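import Pool.Agent.H53.SH.Poly

/-!
# Polynomial functions on space and on the unit sphere
-/

noncomputable section

namespace Pool.H53.SH

open MvPolynomial MeasureTheory

/-- The polynomial function of `p`. -/
def pf (p : P3) (x : E3) : ℝ := eval (fun i => x i) p

@[simp] lemma pf_C (c : ℝ) (x : E3) : pf (C c) x = c := by simp [pf]
@[simp] lemma pf_X (i : Fin 3) (x : E3) : pf (X i) x = x i := by simp [pf]
@[simp] lemma pf_zero (x : E3) : pf 0 x = 0 := by simp [pf]
@[simp] lemma pf_one (x : E3) : pf 1 x = 1 := by simp [pf]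
lemma pf_add (p q : P3) (x : E3) : pf (p + q) x = pf p x + pf q x := by simp [pf]
lemma pf_sub (p q : P3) (x : E3) : pf (p - q) x = pf p x - pf q x := by simp [pf]
lemma pf_mul (p q : P3) (x : E3) : pf (p * q) x = pf p x * pf q x := by simp [pf]
lemma pf_pow (p : P3) (n : ℕ) (x : E3) : pf (p ^ n) x = pf p x ^ n := by simp [pf]
lemma pf_smul (c : ℝ) (p : P3) (x : E3) : pf (c • p) x = c * pf p x := by
  simp [pf, smul_eq_C_mul]

lemma hasFDerivAt_pf (p : P3) (x : E3) :
    HasFDerivAt (pf p) (∑ j : Fin 3, pf (pderiv j p) x • (EuclideanSpace.proj j : E3 →L[ℝ] ℝ))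
      x := by
  induction p using MvPolynomial.induction_on with
  | C a =>
    have h1 : pf (C a) = fun _ => a := by funext y; simp
    rw [h1]
    simpa using hasFDerivAt_const a x
  | add p q hp hq =>
    have h1 : pf (p + q) = fun y => pf p y + pf q y := by funext y; rw [pf_add]
    rw [h1]
    refine (hp.add hq).congr_fderiv ?_
    simp only [map_add, pf_add, add_smul, Finset.sum_add_distrib]
  | mul_X p i hp =>
    have h1 : pf (p * X i) = fun y => pf p y * y i := by funext y; rw [pf_mul, pf_X]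
    rw [h1]
    have hX : HasFDerivAt (fun y : E3 => y i) (EuclideanSpace.proj i : E3 →L[ℝ] ℝ) x :=
      (EuclideanSpace.proj i : E3 →L[ℝ] ℝ).hasFDerivAt
    refine (hp.mul hX).congr_fderiv ?_
    simp only [pderiv_mul, pf_add, pf_mul, pf_X, add_smul, Finset.sum_add_distrib,
      Finset.smul_sum, smul_smul]
    rw [add_comm]
    congr 1
    · exact Finset.sum_congr rfl fun j _ => by rw [mul_comm]
    · rw [Finset.sum_eq_single i]
      · simp
      · intro j _ hj
        rw [pderiv_X_of_ne (Ne.symm hj)]; simp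
      · simp

lemma contDiff_pf (p : P3) {n : WithTop ℕ∞} : ContDiff ℝ n (pf p) := by
  induction p using MvPolynomial.induction_on with
  | C a =>
    have h1 : pf (C a) = fun _ => a := by funext y; simp
    rw [h1]; exact contDiff_const
  | add p q hp hq =>
    have h1 : pf (p + q) = fun y => pf p y + pf q y := by funext y; rw [pf_add]
    rw [h1]; exact hp.add hq
  | mul_X p i hp =>
    have h1 : pf (p * X i) = fun y => pf p y * y i := by funext y; rw [pf_mul, pf_X]
    rw [h1]
    exact hp.mul (EuclideanSpace.proj i : E3 →L[ℝ] ℝ).contDiff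

lemma continuous_pf (p : P3) : Continuous (pf p) := (contDiff_pf p (n := 0)).continuous

lemma Ld_pf (i : Fin 3) (p : P3) (x : E3) : Ld i (pf p) x = pf (LD i p) x := by
  unfold Ld
  rw [(hasFDerivAt_pf p x).fderiv, LD_apply, pf_sub, pf_mul, pf_mul, pf_X, pf_X]
  simp only [Fin.sum_univ_three]
  fin_cases i <;> simp [rot_apply] <;> ring

lemma pf_r2 (x : E3) : pf r2 x = ‖x‖ ^ 2 := by
  rw [EuclideanSpace.norm_sq_eq]
  simp [r2, pf_add, pf_pow, Fin.sum_univ_three]

lemma pf_r2_S2 (w : S2) : pf r2 w = 1 := by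
  rw [pf_r2]; simp

lemma pf_hom {n : ℕ} {p : P3} (hp : p.IsHomogeneous n) (r : ℝ) (x : E3) :
    pf p (r • x) = r ^ n * pf p x := by
  unfold pf
  have h1 : (fun i => (r • x) i) = fun i => r * x i := by
    funext i; simp
  rw [h1]
  rw [eval_eq, eval_eq, Finset.mul_sum]
  refine Finset.sum_congr rfl fun d hd => ?_
  have hdeg : d.degree = n := by
    by_contra h
    exact (mem_support_iff.1 hd) (hp.coeff_eq_zero h)
  have h2 : ∏ i ∈ d.support, (r * x i) ^ d i = r ^ n * ∏ i ∈ d.support, x i ^ d i := by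
    simp only [mul_pow]
    rw [Finset.prod_mul_distrib, Finset.prod_pow_eq_pow_sum, ← hdeg]
    rfl
  rw [h2]; ring

/-- The restriction of a polynomial to the unit sphere. -/
def rs : P3 →ₐ[ℝ] C(S2, ℝ) := aeval fun i =>
  ⟨fun w : S2 => (w : E3) i, (EuclideanSpace.proj i : E3 →L[ℝ] ℝ).continuous.comp
    continuous_subtype_val⟩

lemma rs_apply (p : P3) (w : S2) : rs p w = pf p w := by
  induction p using MvPolynomial.induction_on with
  | C a => simp [rs, pf]
  | add p q hp hq => rw [map_add, pf_add, ← hp, ← hq]; rfl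
  | mul_X p i hp =>
    rw [map_mul, pf_mul, ← hp, pf_X]
    have : rs (X i) w = (w : E3) i := by simp only [rs, aeval_X]; rfl
    rw [← this]; rfl

lemma rs_separates : (rs.range).SeparatesPoints := by
  intro x y hxy
  have h1 : (x : E3) ≠ y := fun h => hxy (Subtype.ext h)
  have h2 : ∃ i, (x : E3) i ≠ (y : E3) i := by
    by_contra h
    push Not at h
    exact h1 (by ext i; exact h i)
  obtain ⟨i, hi⟩ := h2
  refine ⟨rs (X i), ⟨rs (X i), ⟨X i, rfl⟩, rfl⟩, ?_⟩
  rw [rs_apply, rs_apply, pf_X, pf_X]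
  exact hi

lemma rs_dense : (rs.range).topologicalClosure = ⊤ :=
  ContinuousMap.subalgebra_topologicalClosure_eq_top_of_separatesPoints _ rs_separates

/-- The class in `L²` of the restriction of a polynomial to the sphere. -/
def T : P3 →ₗ[ℝ] Lp ℝ 2 sig :=
  (ContinuousMap.toLp (E := ℝ) 2 sig ℝ).toLinearMap ∘ₗ rs.toLinearMap

lemma T_apply (p : P3) : T p = ContinuousMap.toLp (E := ℝ) 2 sig ℝ (rs p) := rfl

open scoped InnerProductSpace in
lemma inner_T (p q : P3) : ⟪T p, T q⟫_ℝ = ∫ w : S2, pf p w * pf q w ∂sig := by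
  rw [T_apply, T_apply, ContinuousMap.inner_toLp]
  refine integral_congr_ae (Filter.Eventually.of_forall fun w => ?_)
  simp only [rs_apply, conj_trivial]
  ring

open scoped InnerProductSpace in
lemma inner_T_LD (i : Fin 3) (p q : P3) : ⟪T (LD i p), T q⟫_ℝ = - ⟪T p, T (LD i q)⟫_ℝ := by
  rw [inner_T, inner_T]
  have := integral_Ld_mul (contDiff_pf p) (contDiff_pf q) i
  simpa only [Ld_pf] using this

lemma T_mul_r2 (p : P3) : T (r2 * p) = T p := by
  rw [T_apply, T_apply]
  congr 1
  ext w
  rw [rs_apply, rs_apply, pf_mul, pf_r2_S2, one_mul]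

lemma T_pow_r2 (j : ℕ) (p : P3) : T (r2 ^ j * p) = T p := by
  induction j with
  | zero => simp
  | succ j ih => rw [pow_succ', mul_assoc, T_mul_r2, ih]

end Pool.H53.SH
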