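import Pool.Agent.H53.SH.Rot

/-!
# Polynomials in three variables: rotation fields, Laplacian and harmonic decomposition
-/

noncomputable section

namespace Pool.H53.SH

open MvPolynomial

/-- Real polynomials in three variables. -/
abbrev P3 := MvPolynomial (Fin 3) ℝ

/-- The rotation field `i` on polynomials. -/
def LD (i : Fin 3) : P3 →ₗ[ℝ] P3 where
  toFun p := X (i + 1) * pderiv (i + 2) p - X (i + 2) * pderiv (i + 1) p
  map_add' p q := by simp only [map_add]; ring
  map_smul' c p := by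
    simp only [RingHom.id_apply, smul_eq_C_mul, pderiv_C_mul]; ring

lemma LD_apply (i : Fin 3) (p : P3) :
    LD i p = X (i + 1) * pderiv (i + 2) p - X (i + 2) * pderiv (i + 1) p := rfl

/-- The Laplacian on polynomials. -/
def lap : P3 →ₗ[ℝ] P3 where
  toFun p := pderiv 0 (pderiv 0 p) + pderiv 1 (pderiv 1 p) + pderiv 2 (pderiv 2 p)
  map_add' p q := by simp only [map_add]; ring
  map_smul' c p := by
    simp only [RingHom.id_apply, smul_eq_C_mul, pderiv_C_mul]; ring

lemma lap_apply (p : P3) :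
    lap p = pderiv 0 (pderiv 0 p) + pderiv 1 (pderiv 1 p) + pderiv 2 (pderiv 2 p) := rfl

/-- The square of the norm. -/
def r2 : P3 := X 0 ^ 2 + X 1 ^ 2 + X 2 ^ 2

/-- The Euler field. -/
def eul (p : P3) : P3 := X 0 * pderiv 0 p + X 1 * pderiv 1 p + X 2 * pderiv 2 p

lemma pderiv_comm (i j : Fin 3) (p : P3) : pderiv i (pderiv j p) = pderiv j (pderiv i p) := by
  ext m
  simp only [coeff_pderiv]
  rw [add_right_comm]
  by_cases h : i = j
  · subst h; rfl
  · simp only [Finsupp.coe_add, Pi.add_apply, Finsupp.single_apply, h, Ne.symm h, if_false]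
    push_cast
    ring

lemma sum_LD_LD (p : P3) :
    LD 0 (LD 0 p) + LD 1 (LD 1 p) + LD 2 (LD 2 p) = r2 * lap p - eul (eul p) - eul p := by
  have e1 : (0 : Fin 3) + 1 = 1 := rfl
  have e2 : (0 : Fin 3) + 2 = 2 := rfl
  have e3 : (1 : Fin 3) + 1 = 2 := rfl
  have e4 : (1 : Fin 3) + 2 = 0 := rfl
  have e5 : (2 : Fin 3) + 1 = 0 := rfl
  have e6 : (2 : Fin 3) + 2 = 1 := rfl
  simp only [LD_apply, lap_apply, eul, r2, e1, e2, e3, e4, e5, e6, map_sub, map_add, pderiv_mul,
    pderiv_X_self, pderiv_X_of_ne (show (1 : Fin 3) ≠ 0 by decide),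
    pderiv_X_of_ne (show (2 : Fin 3) ≠ 0 by decide),
    pderiv_X_of_ne (show (0 : Fin 3) ≠ 1 by decide),
    pderiv_X_of_ne (show (2 : Fin 3) ≠ 1 by decide),
    pderiv_X_of_ne (show (0 : Fin 3) ≠ 2 by decide),
    pderiv_X_of_ne (show (1 : Fin 3) ≠ 2 by decide)]
  rw [pderiv_comm 1 0 p, pderiv_comm 2 0 p, pderiv_comm 2 1 p]
  ring

lemma lap_r2_mul (q : P3) : lap (r2 * q) = C 6 * q + C 4 * eul q + r2 * lap q := by
  have h6 : (C 6 : P3) = 6 := map_ofNat C 6
  have h4 : (C 4 : P3) = 4 := map_ofNat C 4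
  simp only [lap_apply, eul, r2, map_zero, pderiv_one, map_add, pderiv_mul, pow_two,
    pderiv_X_self, pderiv_X_of_ne (show (1 : Fin 3) ≠ 0 by decide),
    pderiv_X_of_ne (show (2 : Fin 3) ≠ 0 by decide),
    pderiv_X_of_ne (show (0 : Fin 3) ≠ 1 by decide),
    pderiv_X_of_ne (show (2 : Fin 3) ≠ 1 by decide),
    pderiv_X_of_ne (show (0 : Fin 3) ≠ 2 by decide),
    pderiv_X_of_ne (show (1 : Fin 3) ≠ 2 by decide), h6, h4]
  ring

lemma eul_of_hom {p : P3} {n : ℕ} (h : p.IsHomogeneous n) : eul p = C (n : ℝ) * p := by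
  have := h.sum_X_mul_pderiv
  rw [Fin.sum_univ_three] at this
  rw [eul, this]
  simp

lemma r2_hom : r2.IsHomogeneous 2 := by
  unfold r2
  exact ((isHomogeneous_X_pow 0 2).add (isHomogeneous_X_pow 1 2)).add (isHomogeneous_X_pow 2 2)

lemma eul_C_mul (c : ℝ) (p : P3) : eul (C c * p) = C c * eul p := by
  simp only [eul, pderiv_C_mul]; ring

/-- Harmonic homogeneous polynomials of degree `l`. -/
def Harm (l : ℕ) : Submodule ℝ P3 := homogeneousSubmodule (Fin 3) ℝ l ⊓ LinearMap.ker lap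

lemma mem_Harm {l : ℕ} {p : P3} : p ∈ Harm l ↔ p.IsHomogeneous l ∧ lap p = 0 := by
  simp [Harm, mem_homogeneousSubmodule]

/-- A harmonic homogeneous polynomial of degree `l` is an eigenfunction of the sum of the squares
of the rotation fields. -/
lemma sum_LD_LD_Harm {l : ℕ} {p : P3} (h : p ∈ Harm l) :
    LD 0 (LD 0 p) + LD 1 (LD 1 p) + LD 2 (LD 2 p) = C (-((l : ℝ) * (l + 1))) * p := by
  obtain ⟨h1, h2⟩ := mem_Harm.1 h
  rw [sum_LD_LD, h2, eul_of_hom h1, eul_C_mul, eul_of_hom h1]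
  simp only [C_neg, C_mul, C_add, C_1]
  ring

lemma lap_pow {l : ℕ} {h : P3} (hh : h ∈ Harm l) (j : ℕ) :
    lap (r2 ^ (j + 1) * h) = C (2 * ((j : ℝ) + 1) * (2 * j + 2 * l + 3)) * (r2 ^ j * h) := by
  obtain ⟨h1, h2⟩ := mem_Harm.1 hh
  induction j with
  | zero =>
    rw [zero_add, pow_one, lap_r2_mul, h2, eul_of_hom h1]
    simp only [C_mul, C_add, C_1, Nat.cast_zero, C_0]
    have h6 : (C 6 : P3) = 6 := map_ofNat C 6
    have h4 : (C 4 : P3) = 4 := map_ofNat C 4
    have h22 : (C 2 : P3) = 2 := map_ofNat C 2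
    have h3 : (C 3 : P3) = 3 := map_ofNat C 3
    rw [h6, h4, h22, h3]
    ring
  | succ j ih =>
    have hom : (r2 ^ (j + 1) * h).IsHomogeneous (2 * (j + 1) + l) := (r2_hom.pow (j + 1)).mul h1
    rw [pow_succ' r2 (j + 1), mul_assoc, lap_r2_mul, ih, eul_of_hom hom]
    have h6 : (C 6 : P3) = 6 := map_ofNat C 6
    have h4 : (C 4 : P3) = 4 := map_ofNat C 4
    have h22 : (C 2 : P3) = 2 := map_ofNat C 2
    have h3 : (C 3 : P3) = 3 := map_ofNat C 3
    push_cast
    simp only [C_mul, C_add, C_1]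
    rw [h6, h4, h22, h3]
    ring

/-- The span of the products of powers of the norm and harmonic polynomials, of degree `n`. -/
def Lay (n : ℕ) : Submodule ℝ P3 :=
  Submodule.span ℝ {p | ∃ j l : ℕ, 2 * j + l = n ∧ ∃ h ∈ Harm l, p = r2 ^ j * h}

lemma Lay_hom {n : ℕ} {p : P3} (hp : p ∈ Lay n) : p.IsHomogeneous n := by
  have : Lay n ≤ homogeneousSubmodule (Fin 3) ℝ n := by
    refine Submodule.span_le.2 ?_
    rintro _ ⟨j, l, hn, h, hh, rfl⟩
    rw [SetLike.mem_coe, mem_homogeneousSubmodule, ← hn]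
    exact (r2_hom.pow j).mul (mem_Harm.1 hh).1
  exact (mem_homogeneousSubmodule _ _).1 (this hp)

lemma lap_surj {n : ℕ} {g : P3} (hg : g ∈ Lay n) : ∃ q ∈ Lay n, lap (r2 * q) = g ∧
    r2 * q ∈ Lay (n + 2) := by
  unfold Lay at hg
  induction hg using Submodule.span_induction with
  | mem x hx =>
    obtain ⟨j, l, hn, h, hh, rfl⟩ := hx
    set c : ℝ := 2 * ((j : ℝ) + 1) * (2 * j + 2 * l + 3) with hc
    have hc0 : c ≠ 0 := by positivity
    refine ⟨c⁻¹ • (r2 ^ j * h), Submodule.smul_mem _ _ (Submodule.subset_span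
      ⟨j, l, hn, h, hh, rfl⟩), ?_, ?_⟩
    · rw [mul_smul_comm, map_smul, ← mul_assoc, ← pow_succ', lap_pow hh j, ← hc, smul_eq_C_mul,
        ← mul_assoc, ← C_mul, inv_mul_cancel₀ hc0, C_1, one_mul]
    · rw [mul_smul_comm, ← mul_assoc, ← pow_succ']
      exact Submodule.smul_mem _ _ (Submodule.subset_span ⟨j + 1, l, by omega, h, hh, rfl⟩)
  | zero => exact ⟨0, Submodule.zero_mem _, by simp, by simp⟩
  | add x y _ _ hx hy =>
    obtain ⟨q1, h1, e1, f1⟩ := hx
    obtain ⟨q2, h2, e2, f2⟩ := hy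
    refine ⟨q1 + q2, Submodule.add_mem _ h1 h2, ?_, ?_⟩
    · rw [mul_add, map_add, e1, e2]
    · rw [mul_add]; exact Submodule.add_mem _ f1 f2
  | smul c x _ hx =>
    obtain ⟨q, h1, e1, f1⟩ := hx
    refine ⟨c • q, Submodule.smul_mem _ _ h1, ?_, ?_⟩
    · rw [mul_smul_comm, map_smul, e1]
    · rw [mul_smul_comm]; exact Submodule.smul_mem _ _ f1

lemma lap_hom {n : ℕ} {p : P3} (hp : p.IsHomogeneous (n + 2)) : (lap p).IsHomogeneous n := by
  rw [lap_apply]
  exact ((hp.pderiv.pderiv).add hp.pderiv.pderiv).add hp.pderiv.pderiv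

lemma pderiv_hom_zero {p : P3} (hp : p.IsHomogeneous 0) (i : Fin 3) : pderiv i p = 0 := by
  rw [← totalDegree_zero_iff_isHomogeneous, totalDegree_eq_zero_iff_eq_C] at hp
  rw [hp, pderiv_C]

lemma lap_hom_small {n : ℕ} {p : P3} (hn : n < 2) (hp : p.IsHomogeneous n) : lap p = 0 := by
  have h : ∀ i j : Fin 3, pderiv i (pderiv j p) = 0 := by
    intro i j
    have h1 : (pderiv j p).IsHomogeneous (n - 1) := hp.pderiv
    have : n - 1 = 0 := by omega
    rw [this] at h1
    exact pderiv_hom_zero h1 i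
  rw [lap_apply, h, h, h]; simp

/-- **Decomposition.** Every homogeneous polynomial is a combination of products of powers of the
square of the norm and harmonic homogeneous polynomials. -/
theorem hom_mem_Lay : ∀ (n : ℕ) (p : P3), p.IsHomogeneous n → p ∈ Lay n := by
  intro n
  induction n using Nat.strong_induction_on with
  | _ n ih =>
    intro p hp
    have base : ∀ h : P3, h.IsHomogeneous n → lap h = 0 → h ∈ Lay n := fun h h1 h2 =>
      Submodule.subset_span ⟨0, n, by omega, h, mem_Harm.2 ⟨h1, h2⟩, by simp⟩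
    rcases Nat.lt_or_ge n 2 with hn | hn
    · exact base p hp (lap_hom_small hn hp)
    · obtain ⟨m, rfl⟩ : ∃ m, n = m + 2 := ⟨n - 2, by omega⟩
      have hl := ih m (by omega) (lap p) (lap_hom hp)
      obtain ⟨q, hq, e, f⟩ := lap_surj hl
      have h1 : p - r2 * q ∈ Lay (m + 2) := by
        refine base _ (hp.sub (Lay_hom f)) ?_
        rw [map_sub, e, sub_self]
      have := Submodule.add_mem _ h1 f
      simpa using this

end Pool.H53.SH
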