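import Mathlib

/-!
# Rotations, the surface measure of the unit sphere in space, and the rotation fields

`sig` is the surface measure of the unit sphere `S2` of `E3`; `rot i x` is the velocity of the
rotation about the `i`-th axis at `x`; `integral_rot` says that the derivative of a `C¹` function
along a rotation field integrates to zero over the sphere.
-/

noncomputable section

namespace Pool.H53.SH

open MeasureTheory Metric Set

/-- Euclidean three space. -/
abbrev E3 := EuclideanSpace ℝ (Fin 3)

/-- The unit sphere. -/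
abbrev S2 := Metric.sphere (0 : E3) 1

/-- The surface measure of the unit sphere. -/
def sig : Measure S2 := (volume : Measure E3).toSphere

instance : IsFiniteMeasure sig := by unfold sig; infer_instance

instance : sig.IsOpenPosMeasure := by unfold sig; infer_instance

/-- The map of the sphere given by a linear isometry. -/
def sphMap (A : E3 ≃ₗᵢ[ℝ] E3) (w : S2) : S2 :=
  ⟨A w.1, by simp⟩

lemma sphMap_coe (A : E3 ≃ₗᵢ[ℝ] E3) (w : S2) : (sphMap A w : E3) = A w.1 := rfl

lemma continuous_sphMap (A : E3 ≃ₗᵢ[ℝ] E3) : Continuous (sphMap A) :=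
  Continuous.subtype_mk (A.continuous.comp continuous_subtype_val) _

lemma sphMap_preimage (A : E3 ≃ₗᵢ[ℝ] E3) (s : Set S2) :
    (Subtype.val '' (sphMap A ⁻¹' s) : Set E3) = A ⁻¹' (Subtype.val '' s) := by
  ext x
  simp only [mem_image, mem_preimage]
  constructor
  · rintro ⟨w, hw, rfl⟩
    exact ⟨sphMap A w, hw, rfl⟩
  · rintro ⟨w, hw, hwx⟩
    have hx : x ∈ S2 := by
      have h1 : ‖A x‖ = 1 := by rw [← hwx]; simp
      simpa using h1
    refine ⟨⟨x, hx⟩, ?_, rfl⟩
    have : sphMap A ⟨x, hx⟩ = w := Subtype.ext hwx.symm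
    rw [this]; exact hw

open scoped Pointwise in
lemma measurePreserving_sphMap (A : E3 ≃ₗᵢ[ℝ] E3) :
    MeasurePreserving (sphMap A) sig sig := by
  refine ⟨(continuous_sphMap A).measurable, ?_⟩
  ext s hs
  rw [Measure.map_apply (continuous_sphMap A).measurable hs]
  unfold sig
  rw [Measure.toSphere_apply' _ ((continuous_sphMap A).measurable hs),
    Measure.toSphere_apply' _ hs, sphMap_preimage]
  congr 1
  have h1 : (Ioo (0 : ℝ) 1 • (A ⁻¹' (Subtype.val '' s)) : Set E3)
      = A ⁻¹' (Ioo (0 : ℝ) 1 • (Subtype.val '' s)) := by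
    ext x
    simp only [Set.mem_smul, mem_preimage]
    constructor
    · rintro ⟨r, hr, y, hy, rfl⟩
      exact ⟨r, hr, A y, hy, by simp⟩
    · rintro ⟨r, hr, y, hy, hyx⟩
      refine ⟨r, hr, A.symm y, by simpa using hy, ?_⟩
      apply A.injective
      simp [hyx]
  rw [h1]
  exact A.measurePreserving.measure_preimage_emb A.toHomeomorph.measurableEmbedding _

lemma integral_sphMap (A : E3 ≃ₗᵢ[ℝ] E3) (F : S2 → ℝ) :
    ∫ w, F (sphMap A w) ∂sig = ∫ w, F w ∂sig := by
  have h : MeasurableEmbedding (sphMap A) := by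
    refine Topology.IsClosedEmbedding.measurableEmbedding ?_
    refine (continuous_sphMap A).isClosedEmbedding ?_
    intro x y hxy
    have := congrArg Subtype.val hxy
    exact Subtype.ext (A.injective this)
  exact (measurePreserving_sphMap A).integral_comp h F

/-- The velocity field of the rotations about the axis `i`. -/
def rot (i : Fin 3) : E3 →L[ℝ] E3 :=
  LinearMap.toContinuousLinearMap
    { toFun := fun x => WithLp.toLp 2
        (fun j => if j = i + 1 then - x (i + 2) else if j = i + 2 then x (i + 1) else 0)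
      map_add' := by
        intro x y; ext j; simp only [PiLp.add_apply]; split_ifs <;> ring
      map_smul' := by
        intro c x; ext j; simp only [PiLp.smul_apply, smul_eq_mul, RingHom.id_apply]
        split_ifs <;> ring }

lemma rot_apply (i j : Fin 3) (x : E3) :
    rot i x j = if j = i + 1 then - x (i + 2) else if j = i + 2 then x (i + 1) else 0 := rfl

/-- The rotation by the angle `t` about the axis `i`, as a linear map. -/
def RL (i : Fin 3) (t : ℝ) : E3 →ₗ[ℝ] E3 where
  toFun := fun x => WithLp.toLp 2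
        (fun j => if j = i + 1 then Real.cos t * x (i + 1) - Real.sin t * x (i + 2)
          else if j = i + 2 then Real.sin t * x (i + 1) + Real.cos t * x (i + 2) else x j)
  map_add' := by
    intro x y; ext j; simp only [PiLp.add_apply]; split_ifs <;> ring
  map_smul' := by
    intro c x; ext j; simp only [PiLp.smul_apply, smul_eq_mul, RingHom.id_apply]
    split_ifs <;> ring

lemma RL_apply (i j : Fin 3) (t : ℝ) (x : E3) :
    RL i t x j = if j = i + 1 then Real.cos t * x (i + 1) - Real.sin t * x (i + 2)
          else if j = i + 2 then Real.sin t * x (i + 1) + Real.cos t * x (i + 2) else x j := rfl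

lemma norm_RL (i : Fin 3) (t : ℝ) (x : E3) : ‖RL i t x‖ = ‖x‖ := by
  have h := Real.sin_sq_add_cos_sq t
  rw [EuclideanSpace.norm_eq, EuclideanSpace.norm_eq]
  congr 1
  simp only [Real.norm_eq_abs, sq_abs, Fin.sum_univ_three, RL_apply]
  fin_cases i
  · simp; linear_combination (x 1 ^ 2 + x 2 ^ 2) * h
  · simp; linear_combination (x 0 ^ 2 + x 2 ^ 2) * h
  · simp; linear_combination (x 0 ^ 2 + x 1 ^ 2) * h

/-- The rotation by the angle `t` about the axis `i`. -/
def Rt (i : Fin 3) (t : ℝ) : E3 ≃ₗᵢ[ℝ] E3 :=
  LinearIsometry.toLinearIsometryEquiv ⟨RL i t, norm_RL i t⟩ rfl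

lemma Rt_apply (i j : Fin 3) (t : ℝ) (x : E3) :
    Rt i t x j = if j = i + 1 then Real.cos t * x (i + 1) - Real.sin t * x (i + 2)
          else if j = i + 2 then Real.sin t * x (i + 1) + Real.cos t * x (i + 2) else x j := rfl

lemma Rt_zero (i : Fin 3) (x : E3) : Rt i 0 x = x := by
  ext j
  rw [Rt_apply]
  split_ifs with h1 h2
  · subst h1; simp
  · subst h2; simp
  · rfl

private lemma hasDerivAt_Rt_aux (i j : Fin 3) (x : E3) (t : ℝ) :
    HasDerivAt (fun s => Rt i s x j) (rot i (Rt i t x) j) t := by
  simp only [Rt_apply, rot_apply]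
  have hc := Real.hasDerivAt_cos t
  have hs := Real.hasDerivAt_sin t
  have h3 : ¬ (i + 2 = i + 1) := by simp
  by_cases h1 : j = i + 1
  · simp only [h1, if_true, h3, if_false]
    exact ((hc.mul_const (x (i + 1))).sub (hs.mul_const (x (i + 2)))).congr_deriv (by ring)
  · by_cases h2 : j = i + 2
    · simp only [h2, if_true, h3, if_false]
      exact ((hs.mul_const (x (i + 1))).add (hc.mul_const (x (i + 2)))).congr_deriv (by ring)
    · simp only [h1, h2, if_false]
      exact hasDerivAt_const _ _

lemma hasDerivAt_Rt (i : Fin 3) (x : E3) (t : ℝ) :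
    HasDerivAt (fun s => Rt i s x) (rot i (Rt i t x)) t := by
  have key : HasDerivAt (fun s => (fun j => Rt i s x j : Fin 3 → ℝ))
      (fun j => rot i (Rt i t x) j) t := by
    rw [hasDerivAt_pi]
    intro j
    exact hasDerivAt_Rt_aux i j x t
  exact (PiLp.continuousLinearEquiv 2 ℝ (fun _ : Fin 3 => ℝ)).symm.hasFDerivAt.comp_hasDerivAt
    t key

/-- The derivative of a `C¹` function along the rotation field `i`. -/
def Ld (i : Fin 3) (h : E3 → ℝ) (x : E3) : ℝ := fderiv ℝ h x (rot i x)

lemma continuous_Ld {h : E3 → ℝ} (hh : ContDiff ℝ 1 h) (i : Fin 3) : Continuous (Ld i h) :=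
  (hh.continuous_fderiv one_ne_zero).clm_apply (rot i).continuous

/-- **No mean.** The derivative along a rotation field integrates to zero over the sphere. -/
theorem integral_Ld {h : E3 → ℝ} (hh : ContDiff ℝ 1 h) (i : Fin 3) :
    ∫ w : S2, Ld i h w ∂sig = 0 := by
  have hcont := continuous_Ld hh i
  have hcomp : IsCompact (Metric.sphere (0 : E3) 1) := isCompact_sphere 0 1
  obtain ⟨C, hC⟩ := hcomp.exists_bound_of_continuousOn hcont.continuousOn
  have hder : ∀ t : ℝ, ∀ x : E3, HasDerivAt (fun s => h (Rt i s x)) (Ld i h (Rt i t x)) t := by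
    intro t x
    exact ((hh.differentiable one_ne_zero (Rt i t x)).hasFDerivAt).comp_hasDerivAt t
      (hasDerivAt_Rt i x t)
  have hF : HasDerivAt (fun t => ∫ w : S2, h (Rt i t w) ∂sig)
      (∫ w : S2, Ld i h (Rt i 0 w) ∂sig) 0 := by
    refine (hasDerivAt_integral_of_dominated_loc_of_deriv_le (μ := sig) (s := univ)
      (F := fun t (w : S2) => h (Rt i t w)) (F' := fun t (w : S2) => Ld i h (Rt i t w))
      (bound := fun _ => C) Filter.univ_mem ?_ ?_ ?_ ?_ ?_ ?_).2
    · refine Filter.Eventually.of_forall fun t => ?_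
      exact (hh.continuous.comp ((Rt i t).continuous.comp
        continuous_subtype_val)).aestronglyMeasurable
    · have hc : Continuous (fun w : S2 => h (Rt i 0 w)) :=
        hh.continuous.comp ((Rt i 0).continuous.comp continuous_subtype_val)
      exact hc.integrable_of_hasCompactSupport (HasCompactSupport.of_compactSpace _)
    · exact (hcont.comp ((Rt i 0).continuous.comp
        continuous_subtype_val)).aestronglyMeasurable
    · refine Filter.Eventually.of_forall fun w t _ => ?_
      exact hC _ (by simp)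
    · exact integrable_const _
    · exact Filter.Eventually.of_forall fun w t _ => hder t w
  have hconst : (fun t => ∫ w : S2, h (Rt i t w) ∂sig) = fun _ => ∫ w : S2, h w ∂sig := by
    funext t
    exact integral_sphMap (Rt i t) (fun w => h w)
  rw [hconst] at hF
  have h0 := hF.unique (hasDerivAt_const _ _)
  simpa [Rt_zero] using h0

lemma Ld_mul {f g : E3 → ℝ} (hf : ContDiff ℝ 1 f) (hg : ContDiff ℝ 1 g) (i : Fin 3) (x : E3) :
    Ld i (fun y => f y * g y) x = f x * Ld i g x + Ld i f x * g x := by
  unfold Ld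
  have h1 := (hf.differentiable one_ne_zero x).hasFDerivAt
  have h2 := (hg.differentiable one_ne_zero x).hasFDerivAt
  have h3 : HasFDerivAt (fun y => f y * g y) (f x • fderiv ℝ g x + g x • fderiv ℝ f x) x :=
    h1.mul h2
  rw [h3.fderiv]
  simp only [ContinuousLinearMap.add_apply, ContinuousLinearMap.smul_apply, smul_eq_mul]
  ring

/-- **Skew symmetry** of the derivative along a rotation field. -/
theorem integral_Ld_mul {f g : E3 → ℝ} (hf : ContDiff ℝ 1 f) (hg : ContDiff ℝ 1 g) (i : Fin 3) :
    ∫ w : S2, Ld i f w * g w ∂sig = - ∫ w : S2, f w * Ld i g w ∂sig := by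
  have h0 := integral_Ld (hf.mul hg) i
  have h1 : ∀ w : S2, Ld i (fun y => f y * g y) w = f w * Ld i g w + Ld i f w * g w :=
    fun w => Ld_mul hf hg i w
  have hi : ∀ F : E3 → ℝ, Continuous F → Integrable (fun w : S2 => F w) sig := fun F hF =>
    (hF.comp continuous_subtype_val).integrable_of_hasCompactSupport
      (HasCompactSupport.of_compactSpace _)
  have h2 : ∫ w : S2, (f w * Ld i g w + Ld i f w * g w) ∂sig = 0 := by
    rw [← h0]
    exact integral_congr_ae (Filter.Eventually.of_forall fun w => (h1 w).symm)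
  have h3 : ∫ w : S2, (f w * Ld i g w + Ld i f w * g w) ∂sig
      = ∫ w : S2, f w * Ld i g w ∂sig + ∫ w : S2, Ld i f w * g w ∂sig :=
    integral_add (hi _ (hf.continuous.mul (continuous_Ld hg i)))
      (hi _ ((continuous_Ld hf i).mul hg.continuous))
  linarith

end Pool.H53.SH
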